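import Pool.Agent.Helper75.Slab.Goals

set_option autoImplicit false

/-!
# The vorticity is frozen into the flow
-/

open Set

namespace Pool.Agent.Helper5.Slab

open Pool.Agent.Helper75.Flow

/-- expansion of a linear map of three-space on the basis -/
theorem lin3 (L : E →L[ℝ] E) (v : E) (i : Fin 3) :
    L v i = v 0 * L (Pi.single 0 1) i + v 1 * L (Pi.single 1 1) i + v 2 * L (Pi.single 2 1) i := by
  conv_lhs => rw [pi_eq_sum_univ' v]
  rw [map_sum, Fin.sum_univ_three]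
  simp only [map_smul, Pi.add_apply, Pi.smul_apply, smul_eq_mul]

/-- the determinant in coordinates -/
theorem det3 (L : E →L[ℝ] E) :
    L.det = L (Pi.single 0 1) 0 * L (Pi.single 1 1) 1 * L (Pi.single 2 1) 2
      - L (Pi.single 0 1) 0 * L (Pi.single 2 1) 1 * L (Pi.single 1 1) 2
      - L (Pi.single 1 1) 0 * L (Pi.single 0 1) 1 * L (Pi.single 2 1) 2
      + L (Pi.single 1 1) 0 * L (Pi.single 2 1) 1 * L (Pi.single 0 1) 2
      + L (Pi.single 2 1) 0 * L (Pi.single 0 1) 1 * L (Pi.single 1 1) 2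
      - L (Pi.single 2 1) 0 * L (Pi.single 1 1) 1 * L (Pi.single 0 1) 2 := by
  have h : L.det = (LinearMap.toMatrix' (L : E →ₗ[ℝ] E)).det := by
    rw [LinearMap.det_toMatrix']
  rw [h, Matrix.det_fin_three]
  simp only [LinearMap.toMatrix'_apply]
  rfl

theorem thm (haj : G_AJ) : G_VORT := by
  intro t K u g φ O J hE hφ hO hJ hJc hdet X hX s hs
  have hB := haj t K u g φ O J hE hφ hO hJ hJc X hX
  obtain ⟨ht, -, -, -, -, -, -, -, -, hsym, -⟩ := hE
  obtain ⟨hJ0, hJs⟩ := hJ X hX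
  -- derivatives of the entries
  have dJ : ∀ k i : Fin 3, ∀ r ∈ Icc (0 : ℝ) t, HasDerivWithinAt (fun τ => J τ X (Pi.single k 1) i)
      (fderiv ℝ (u r) (φ r X) (J r X (Pi.single k 1)) i) (Icc 0 t) r := by
    intro k i r hr
    have h1 := (hJs r hr).2
    have h2 := h1.clm_apply (hasDerivWithinAt_const r (Icc (0 : ℝ) t) (Pi.single k 1 : E))
    have h3 := (hasDerivWithinAt_pi.1 h2) i
    simpa using h3
  have dB : ∀ k i : Fin 3, ∀ r ∈ Icc (0 : ℝ) t,
      HasDerivWithinAt (fun τ => fderiv ℝ (u τ) (φ τ X) (J τ X (Pi.single k 1)) i)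
      (-(fderiv ℝ (g r) (φ r X) (J r X (Pi.single k 1)) i)) (Icc 0 t) r := by
    intro k i r hr
    have h1 := hB r hr
    have h2 := h1.clm_apply (hasDerivWithinAt_const r (Icc (0 : ℝ) t) (Pi.single k 1 : E))
    have h3 := (hasDerivWithinAt_pi.1 h2) i
    simpa using h3
  -- the conserved quantities
  let P : Fin 3 → Fin 3 → ℝ → ℝ := fun k l τ =>
    (J τ X (Pi.single k 1) 0 * fderiv ℝ (u τ) (φ τ X) (J τ X (Pi.single l 1)) 0
      + J τ X (Pi.single k 1) 1 * fderiv ℝ (u τ) (φ τ X) (J τ X (Pi.single l 1)) 1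
      + J τ X (Pi.single k 1) 2 * fderiv ℝ (u τ) (φ τ X) (J τ X (Pi.single l 1)) 2)
    - (J τ X (Pi.single l 1) 0 * fderiv ℝ (u τ) (φ τ X) (J τ X (Pi.single k 1)) 0
      + J τ X (Pi.single l 1) 1 * fderiv ℝ (u τ) (φ τ X) (J τ X (Pi.single k 1)) 1
      + J τ X (Pi.single l 1) 2 * fderiv ℝ (u τ) (φ τ X) (J τ X (Pi.single k 1)) 2)
  have dP : ∀ k l : Fin 3, ∀ r ∈ Icc (0 : ℝ) t, HasDerivWithinAt (P k l) 0 (Icc 0 t) r := by
    intro k l r hr
    have h := ((((dJ k 0 r hr).mul (dB l 0 r hr)).add ((dJ k 1 r hr).mul (dB l 1 r hr))).add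
      ((dJ k 2 r hr).mul (dB l 2 r hr))).sub
      ((((dJ l 0 r hr).mul (dB k 0 r hr)).add ((dJ l 1 r hr).mul (dB k 1 r hr))).add
      ((dJ l 2 r hr).mul (dB k 2 r hr)))
    refine h.congr_deriv ?_
    have s01 := hsym r hr (φ r X) (hO X hX r hr) 0 1
    have s02 := hsym r hr (φ r X) (hO X hX r hr) 0 2
    have s12 := hsym r hr (φ r X) (hO X hX r hr) 1 2
    have e := fun v i => lin3 (fderiv ℝ (g r) (φ r X)) v i
    rw [e (J r X (Pi.single k 1)) 0, e (J r X (Pi.single k 1)) 1,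
      e (J r X (Pi.single k 1)) 2, e (J r X (Pi.single l 1)) 0,
      e (J r X (Pi.single l 1)) 1, e (J r X (Pi.single l 1)) 2, s01, s02, s12]
    ring
  have cP : ∀ k l : Fin 3, ∀ r ∈ Icc (0 : ℝ) t, P k l r = P k l 0 := by
    intro k l
    apply constant_of_derivWithin_zero
    · intro r hr
      exact (dP k l r hr).differentiableWithinAt
    · intro r hr
      have h0 : (0 : ℝ) < t := lt_of_le_of_lt hr.1 hr.2
      exact (dP k l r ⟨hr.1, hr.2.le⟩).derivWithin ((uniqueDiffOn_Icc h0) r ⟨hr.1, hr.2.le⟩)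
  have hφ0 : φ 0 X = X := hφ.1 X
  have P0 : ∀ k l : Fin 3, P k l 0 = fderiv ℝ (u 0) X (Pi.single l 1) k
      - fderiv ℝ (u 0) X (Pi.single k 1) l := by
    intro k l
    simp only [P, hJ0, hφ0, ContinuousLinearMap.id_apply]
    fin_cases k <;> fin_cases l <;> simp
  -- values at time s
  have c0 := cP 2 1 s hs
  have c1 := cP 0 2 s hs
  have c2 := cP 1 0 s hs
  rw [P0] at c0 c1 c2
  have hd := hdet X hX s hs
  rw [det3] at hd
  have key : ∀ i : Fin 3, curlL (fderiv ℝ (u s) (φ s X)) i =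
      J s X (curlL (fderiv ℝ (u 0) X)) i := by
    intro i
    rw [lin3 (J s X) (curlL (fderiv ℝ (u 0) X)) i]
    have e0 : curlL (fderiv ℝ (u 0) X) 0 = P 2 1 s := c0.symm
    have e1 : curlL (fderiv ℝ (u 0) X) 1 = P 0 2 s := c1.symm
    have e2 : curlL (fderiv ℝ (u 0) X) 2 = P 1 0 s := c2.symm
    rw [e0, e1, e2]
    simp only [P, lin3 (fderiv ℝ (u s) (φ s X)) (J s X _)]
    fin_cases i
    · show fderiv ℝ (u s) (φ s X) (Pi.single 1 1) 2 - fderiv ℝ (u s) (φ s X) (Pi.single 2 1) 1 = _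
      simp only [Fin.zero_eta, Fin.isValue]
      linear_combination (-(fderiv ℝ (u s) (φ s X) (Pi.single 1 1) 2
        - fderiv ℝ (u s) (φ s X) (Pi.single 2 1) 1)) * hd
    · show fderiv ℝ (u s) (φ s X) (Pi.single 2 1) 0 - fderiv ℝ (u s) (φ s X) (Pi.single 0 1) 2 = _
      simp only [Fin.mk_one, Fin.isValue]
      linear_combination (-(fderiv ℝ (u s) (φ s X) (Pi.single 2 1) 0
        - fderiv ℝ (u s) (φ s X) (Pi.single 0 1) 2)) * hd
    · show fderiv ℝ (u s) (φ s X) (Pi.single 0 1) 1 - fderiv ℝ (u s) (φ s X) (Pi.single 1 1) 0 = _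
      simp only [Fin.reduceFinMk, Fin.isValue]
      linear_combination (-(fderiv ℝ (u s) (φ s X) (Pi.single 0 1) 1
        - fderiv ℝ (u s) (φ s X) (Pi.single 1 1) 0)) * hd
  exact funext key

end Pool.Agent.Helper5.Slab
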